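import Pool.Agent.Helper35.PI.St2

set_option autoImplicit false

namespace Helper80.PI

open Helper35.PI Matrix
open scoped MatrixOrder ComplexOrder

variable {n N : ℕ}

/-- a symmetric factor of a positive definite matrix -/
theorem exists_factor (A : Matrix (Fin n) (Fin n) ℝ) (hA : A.PosDef) :
    ∃ P : Matrix (Fin n) (Fin n) ℝ, A = P * P.transpose := by
  obtain ⟨B, hB⟩ := CStarAlgebra.nonneg_iff_eq_mul_star_self.mp hA.posSemidef.nonneg
  refine ⟨B, ?_⟩
  rw [hB, Matrix.star_eq_conjTranspose, Matrix.conjTranspose_eq_transpose_of_trivial]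

theorem sum_fac1 {V : Type*} [AddCommGroup V] [Module ℝ V] (A P : Matrix (Fin n) (Fin n) ℝ)
    (h : A = P * P.transpose) (X : Fin n → Fin n → V) :
    ∑ i, ∑ j, A i j • X i j = ∑ a, ∑ i, ∑ j, (P i a * P j a) • X i j := by
  have hij : ∀ i j, A i j = ∑ a, P i a * P j a := by
    intro i j
    rw [h, Matrix.mul_apply]
    rfl
  calc ∑ i, ∑ j, A i j • X i j = ∑ i, ∑ j, ∑ a, (P i a * P j a) • X i j := by
        refine Finset.sum_congr rfl fun i _ => Finset.sum_congr rfl fun j _ => ?_
        rw [hij, Finset.sum_smul]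
    _ = ∑ i, ∑ a, ∑ j, (P i a * P j a) • X i j := by
        refine Finset.sum_congr rfl fun i _ => ?_
        rw [Finset.sum_comm]
    _ = ∑ a, ∑ i, ∑ j, (P i a * P j a) • X i j := by
        rw [Finset.sum_comm]

theorem sum_fac2 (A P : Matrix (Fin n) (Fin n) ℝ)
    (h : A = P * P.transpose) (T : Fin n → Fin n → Fin n → Fin n → ℝ) :
    ∑ i, ∑ j, ∑ k, ∑ l, A i k * A j l * T i j k l
      = ∑ a, ∑ b, ∑ i, ∑ j, ∑ k, ∑ l, (P i a * P j b) * (P k a * P l b) * T i j k l := by
  have hij : ∀ i j, A i j = ∑ a, P i a * P j a := by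
    intro i j
    rw [h, Matrix.mul_apply]
    rfl
  have h1 : ∀ i j k l, A i k * A j l * T i j k l
      = ∑ a, ∑ b, (P i a * P j b) * (P k a * P l b) * T i j k l := by
    intro i j k l
    rw [hij, hij, Finset.sum_mul_sum, Finset.sum_mul]
    refine Finset.sum_congr rfl fun a _ => ?_
    rw [Finset.sum_mul]
    refine Finset.sum_congr rfl fun b _ => ?_
    ring
  have e1 : ∀ F : Fin n → Fin n → Fin n → ℝ, ∑ i, ∑ a, ∑ b, F i a b = ∑ a, ∑ b, ∑ i, F i a b := by
    intro F
    rw [Finset.sum_comm]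
    refine Finset.sum_congr rfl fun a _ => ?_
    rw [Finset.sum_comm]
  simp_rw [h1]
  rw [← e1 (fun i a b => ∑ j, ∑ k, ∑ l, (P i a * P j b) * (P k a * P l b) * T i j k l)]
  refine Finset.sum_congr rfl fun i _ => ?_
  rw [← e1 (fun j a b => ∑ k, ∑ l, (P i a * P j b) * (P k a * P l b) * T i j k l)]
  refine Finset.sum_congr rfl fun j _ => ?_
  rw [← e1 (fun k a b => ∑ l, (P i a * P j b) * (P k a * P l b) * T i j k l)]
  refine Finset.sum_congr rfl fun k _ => ?_
  rw [← e1 (fun l a b => (P i a * P j b) * (P k a * P l b) * T i j k l)]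

theorem hFR : StFR := by
  intro n N f x hf
  have hPD : (Helper35.PI.gram f x).PosDef :=
    Matrix.posDef_gram_of_linearIndependent (𝕜 := ℝ) hf
  have hU : IsUnit (Helper35.PI.gram f x).det :=
    (Matrix.isUnit_iff_isUnit_det _).mp hPD.isUnit
  obtain ⟨P, hP⟩ := exists_factor _ hPD.inv
  have hPdet : IsUnit P.det := by
    have h1 : ((Helper35.PI.gram f x)⁻¹).det = P.det * P.det := by
      rw [hP, Matrix.det_mul, Matrix.det_transpose]
    have h2 : IsUnit ((Helper35.PI.gram f x)⁻¹).det :=
      Matrix.isUnit_nonsing_inv_det _ hU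
    rw [h1] at h2
    exact isUnit_of_mul_isUnit_left h2
  have hPG : P.transpose * Helper35.PI.gram f x * P = 1 := by
    have h1 : Helper35.PI.gram f x * (P * P.transpose) = 1 := by
      rw [← hP, Matrix.mul_nonsing_inv _ hU]
    -- P * Pᵀ * G = 1 too; P * (Pᵀ * G * P) = P
    have h2 : P * P.transpose * Helper35.PI.gram f x = 1 := by
      rw [← hP, Matrix.nonsing_inv_mul _ hU]
    have h3 : P * (P.transpose * Helper35.PI.gram f x) = 1 := by
      rw [← Matrix.mul_assoc]; exact h2
    exact mul_eq_one_comm.mp h3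
  refine ⟨hPD, hU, P, hP, hPdet, hPG, ?_, ?_, ?_, ?_⟩
  · intro a b
    have h1 := congrFun (congrFun hPG a) b
    rw [Matrix.one_apply] at h1
    rw [← h1, Matrix.mul_assoc, Matrix.mul_apply, sum_inner]
    refine Finset.sum_congr rfl fun i _ => ?_
    rw [inner_sum, Matrix.mul_apply, Finset.mul_sum]
    refine Finset.sum_congr rfl fun j _ => ?_
    rw [inner_smul_left, inner_smul_right]
    simp only [Matrix.transpose_apply, Helper35.PI.gram, Matrix.of_apply, conj_trivial]
    ring
  · intro X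
    exact sum_fac1 _ P hP X
  · intro X Y
    rw [sum_fac2 _ P hP (fun i j k l => X i j * Y k l)]
    refine Finset.sum_congr rfl fun a _ => Finset.sum_congr rfl fun b _ => ?_
    rw [Finset.sum_mul]
    refine Finset.sum_congr rfl fun i _ => ?_
    rw [Finset.sum_mul]
    refine Finset.sum_congr rfl fun j _ => ?_
    rw [Finset.mul_sum]
    refine Finset.sum_congr rfl fun k _ => ?_
    rw [Finset.mul_sum]
    refine Finset.sum_congr rfl fun l _ => ?_
    ring
  · intro X Y
    rw [sum_fac2 _ P hP (fun i j k l => inner ℝ (X i j) (Y k l))]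
    refine Finset.sum_congr rfl fun a _ => Finset.sum_congr rfl fun b _ => ?_
    rw [sum_inner]
    refine Finset.sum_congr rfl fun i _ => ?_
    rw [sum_inner]
    refine Finset.sum_congr rfl fun j _ => ?_
    rw [inner_sum]
    refine Finset.sum_congr rfl fun k _ => ?_
    rw [inner_sum]
    refine Finset.sum_congr rfl fun l _ => ?_
    rw [inner_smul_left, inner_smul_right]
    simp only [conj_trivial]
    ring

end Helper80.PI
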