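import Pool.Agent.Helper35.PI.St3

set_option autoImplicit false

namespace Helper80.PI

open scoped ContDiff Manifold Topology ENNReal BigOperators
open MeasureTheory Set Filter Helper35.PI

/-- constancy of the span of a moving frame whose derivative lies in the span -/
theorem frame_const (hGW : StGW) (N m : ℕ) (a b : ℝ) (hab : a ≤ b) (e e' : Fin m → ℝ → EE N)
    (hc : ∀ i, ContinuousOn (e i) (Icc a b)) (hc' : ∀ i, ContinuousOn (e' i) (Icc a b))
    (hd : ∀ i, ∀ s ∈ Ioo a b, HasDerivAt (e i) (e' i s) s)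
    (hli : ∀ s ∈ Icc a b, LinearIndependent ℝ (fun i => e i s))
    (hsp : ∀ s ∈ Icc a b, ∀ i, e' i s ∈ Submodule.span ℝ (range fun j => e j s)) :
    Submodule.span ℝ (range fun j => e j a) = Submodule.span ℝ (range fun j => e j b) := by
  classical
  set G : ℝ → Matrix (Fin m) (Fin m) ℝ :=
    fun s => Matrix.of fun i j => inner ℝ (e i s) (e j s) with hG
  have hGpd : ∀ s ∈ Icc a b, (G s).PosDef := fun s hs =>
    Matrix.posDef_gram_of_linearIndependent (𝕜 := ℝ) (hli s hs)
  have hGu : ∀ s ∈ Icc a b, IsUnit (G s).det := fun s hs =>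
    (Matrix.isUnit_iff_isUnit_det _).mp (hGpd s hs).isUnit
  have hGc : ContinuousOn G (Icc a b) := by
    refine continuousOn_pi.mpr fun i => continuousOn_pi.mpr fun j => ?_
    exact (hc i).inner (hc j)
  have hGi : ContinuousOn (fun s => (G s)⁻¹) (Icc a b) := by
    intro s hs
    have h0 : ContinuousAt (Ring.inverse : ℝ → ℝ) (G s).det := by
      have : (Ring.inverse : ℝ → ℝ) = fun x => x⁻¹ := by
        funext x; exact Ring.inverse_eq_inv x
      rw [this]
      exact continuousAt_inv₀ (hGu s hs).ne_zero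
    exact (continuousAt_matrix_inv _ h0).comp_continuousWithinAt (hGc s hs)
  have hGij : ∀ k j, ContinuousOn (fun s => (G s)⁻¹ k j) (Icc a b) := fun k j =>
    continuousOn_pi.mp (continuousOn_pi.mp hGi k) j
  set C : Fin m → Fin m → ℝ → ℝ :=
    fun i j s => ∑ k, inner ℝ (e' i s) (e k s) * (G s)⁻¹ k j with hC
  have hCc : ∀ i j, ContinuousOn (C i j) (Icc a b) := by
    intro i j
    refine continuousOn_finsetSum _ fun k _ => ?_
    exact ((hc' i).inner (hc k)).mul (hGij k j)
  have hrep : ∀ s ∈ Icc a b, ∀ v ∈ Submodule.span ℝ (range fun j => e j s),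
      v = ∑ j, (∑ k, inner ℝ v (e k s) * (G s)⁻¹ k j) • e j s := by
    intro s hs v hv
    induction hv using Submodule.span_induction with
    | mem x hx =>
      obtain ⟨l, rfl⟩ := hx
      have h1 : ∀ j, ∑ k, (inner ℝ (e l s) (e k s) : ℝ) * (G s)⁻¹ k j = if l = j then 1 else 0 := by
        intro j
        have h2 : (G s * (G s)⁻¹) l j = (1 : Matrix (Fin m) (Fin m) ℝ) l j := by
          rw [Matrix.mul_nonsing_inv _ (hGu s hs)]
        rw [Matrix.mul_apply, Matrix.one_apply] at h2
        exact h2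
      simp only [h1]
      simp
    | zero => simp
    | add x y _ _ hx hy =>
      conv_lhs => rw [hx, hy]
      rw [← Finset.sum_add_distrib]
      refine Finset.sum_congr rfl fun j _ => ?_
      rw [← add_smul, ← Finset.sum_add_distrib]
      congr 1
      refine Finset.sum_congr rfl fun k _ => ?_
      rw [inner_add_left]
      ring
    | smul c x _ hx =>
      conv_lhs => rw [hx]
      rw [Finset.smul_sum]
      refine Finset.sum_congr rfl fun j _ => ?_
      rw [smul_smul, Finset.mul_sum]
      congr 1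
      refine Finset.sum_congr rfl fun k _ => ?_
      rw [inner_smul_left]
      simp only [conj_trivial]
      ring
  have hbd : ∀ i j, ∃ B : ℝ, ∀ s ∈ Icc a b, |C i j s| ≤ B := by
    intro i j
    obtain ⟨B, hB⟩ := isCompact_Icc.exists_bound_of_continuousOn (hCc i j)
    exact ⟨B, fun s hs => by simpa [Real.norm_eq_abs] using hB s hs⟩
  choose B hB using hbd
  have hBnn : ∀ i j, 0 ≤ B i j := fun i j =>
    (abs_nonneg _).trans (hB i j a (left_mem_Icc.mpr hab))
  have hBle : ∀ i j, B i j ≤ ∑ i', ∑ j', B i' j' := by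
    intro i j
    calc B i j ≤ ∑ j', B i j' :=
          Finset.single_le_sum (fun j' _ => hBnn i j') (Finset.mem_univ j)
      _ ≤ ∑ i', ∑ j', B i' j' :=
          Finset.single_le_sum (f := fun i' => ∑ j', B i' j')
            (fun i' _ => Finset.sum_nonneg fun j' _ => hBnn i' j') (Finset.mem_univ i)
  have key := hGW N m a b e C (∑ i', ∑ j', B i' j') hab hc
    (fun i s hs => by
      have h1 := hrep s (Ioo_subset_Icc_self hs) (e' i s) (hsp s (Ioo_subset_Icc_self hs) i)
      have h2 := hd i s hs
      rw [h1] at h2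
      exact h2)
    (fun i j s hs => (hB i j s (Ioo_subset_Icc_self hs)).trans (hBle i j))
  have hort : (Submodule.span ℝ (range fun j => e j a))ᗮ
      = (Submodule.span ℝ (range fun j => e j b))ᗮ := by
    have hm : ∀ (w : Fin m → EE N) (v : EE N),
        v ∈ (Submodule.span ℝ (range w))ᗮ ↔ ∀ i, (inner ℝ (w i) v : ℝ) = 0 := by
      intro w v
      rw [Submodule.mem_orthogonal]
      constructor
      · intro h i
        exact h _ (Submodule.subset_span ⟨i, rfl⟩)
      · intro h u hu
        induction hu using Submodule.span_induction with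
        | mem x hx => obtain ⟨i, rfl⟩ := hx; exact h i
        | zero => simp
        | add x y _ _ hx hy => rw [inner_add_left, hx, hy, add_zero]
        | smul c x _ hx => rw [inner_smul_left, hx, mul_zero]
    ext v
    rw [hm, hm]
    exact key v
  calc Submodule.span ℝ (range fun j => e j a)
      = ((Submodule.span ℝ (range fun j => e j a))ᗮ)ᗮ := (Submodule.orthogonal_orthogonal _).symm
    _ = ((Submodule.span ℝ (range fun j => e j b))ᗮ)ᗮ := by rw [hort]
    _ = Submodule.span ℝ (range fun j => e j b) := Submodule.orthogonal_orthogonal _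

variable {n N : ℕ}

/-- the normal projection is normal -/
theorem inner_nrm_dv1 (f : EE n → EE N) (x : EE n) (hf : LI f x) (v : EE N) (i : Fin n) :
    (inner ℝ (nrm f x v) (dv1 f x i) : ℝ) = 0 := by
  have hPD : (Helper35.PI.gram f x).PosDef :=
    Matrix.posDef_gram_of_linearIndependent (𝕜 := ℝ) hf
  have hU : IsUnit (Helper35.PI.gram f x).det :=
    (Matrix.isUnit_iff_isUnit_det _).mp hPD.isUnit
  have h1 : ∀ k, ∑ l, (Helper35.PI.gram f x)⁻¹ k l * (inner ℝ (dv1 f x l) (dv1 f x i) : ℝ)
      = if k = i then 1 else 0 := by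
    intro k
    have h2 : ((Helper35.PI.gram f x)⁻¹ * Helper35.PI.gram f x) k i
        = (1 : Matrix (Fin n) (Fin n) ℝ) k i := by
      rw [Matrix.nonsing_inv_mul _ hU]
    rw [Matrix.mul_apply, Matrix.one_apply] at h2
    exact h2
  unfold nrm
  rw [inner_sub_left, sum_inner]
  have h3 : ∀ k, (inner ℝ (∑ l, ((Helper35.PI.gram f x)⁻¹ k l * inner ℝ v (dv1 f x k)) • dv1 f x l)
      (dv1 f x i) : ℝ) = inner ℝ v (dv1 f x k) * (if k = i then 1 else 0) := by
    intro k
    rw [sum_inner, ← h1 k, Finset.mul_sum]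
    refine Finset.sum_congr rfl fun l _ => ?_
    rw [inner_smul_left]
    simp only [conj_trivial]
    ring
  simp only [h3]
  simp

theorem inner_mcv_span (f : EE n → EE N) (x : EE n) (hf : LI f x) (v : EE N)
    (hv : v ∈ Submodule.span ℝ (range fun i => dv1 f x i)) :
    (inner ℝ (mcv f x) v : ℝ) = 0 := by
  induction hv using Submodule.span_induction with
  | mem y hy =>
    obtain ⟨i, rfl⟩ := hy
    unfold mcv
    simp only [sum_inner, inner_smul_left]
    refine Finset.sum_eq_zero fun k _ => Finset.sum_eq_zero fun l _ => ?_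
    rw [sff, inner_nrm_dv1 f x hf, mul_zero]
  | zero => simp
  | add y z _ _ hy hz => rw [inner_add_right, hy, hz, add_zero]
  | smul c y _ hy => rw [inner_smul_right, hy, mul_zero]

theorem mcv_notMem (f : EE n → EE N) (x : EE n) (hf : LI f x) (h0 : mcv f x ≠ 0) :
    mcv f x ∉ Submodule.span ℝ (range fun i => dv1 f x i) := by
  intro h
  have h1 := inner_mcv_span f x hf _ h
  rw [real_inner_self_eq_norm_sq] at h1
  exact h0 (norm_eq_zero.mp (pow_eq_zero_iff two_ne_zero |>.mp h1))

theorem fderiv_mem (φ : EE n → EE N) (x v : EE n) (S : Submodule ℝ (EE N))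
    (h : ∀ l, fderiv ℝ φ x (ee l) ∈ S) : fderiv ℝ φ x v ∈ S := by
  have h1 : v = ∑ l, v l • ee l := by
    have := (EuclideanSpace.basisFun (Fin n) ℝ).sum_repr v
    simp only [EuclideanSpace.basisFun_repr, EuclideanSpace.basisFun_apply] at this
    exact this.symm
  rw [h1, map_sum]
  refine Submodule.sum_mem _ fun l _ => ?_
  rw [map_smul]
  exact Submodule.smul_mem _ _ (h l)

/-- the frame -/
noncomputable def Fr (f : EE n → EE N) (i : Fin (n + 1)) (x : EE n) : EE N :=
  (Fin.snoc (fun i => dv1 f x i) (mcv f x) : Fin (n + 1) → EE N) i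

theorem Fr_last (f : EE n → EE N) : Fr f (Fin.last n) = mcv f := by
  funext x
  simp [Fr]

theorem Fr_castSucc (f : EE n → EE N) (i : Fin n) : Fr f i.castSucc = fun x => dv1 f x i := by
  funext x
  simp [Fr]

theorem Fr_range (f : EE n → EE N) (x : EE n) :
    Submodule.span ℝ (range fun i => Fr f i x)
      = Submodule.span ℝ (range fun i => dv1 f x i) ⊔ Submodule.span ℝ {mcv f x} := by
  have h1 : (range fun i => Fr f i x) = insert (mcv f x) (range fun i => dv1 f x i) := by
    unfold Fr
    exact Fin.range_snoc _ _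
  rw [h1, Submodule.span_insert, sup_comm]

theorem Fr_li (f : EE n → EE N) (x : EE n) (hf : LI f x) (h0 : mcv f x ≠ 0) :
    LinearIndependent ℝ (fun i => Fr f i x) :=
  linearIndependent_finSnoc.mpr ⟨hf, mcv_notMem f x hf h0⟩

theorem seg_const (hGW : StGW) (hCZ : StCZ) (hSM : StSM) (f : EE n → EE N) (U : Set (EE n))
    (hU : IsOpen U) (hf : ContDiffOn ℝ ∞ f U)
    (h : ∀ x ∈ U, LI f x ∧ mcv f x ≠ 0 ∧ nsq f x * ‖mcv f x‖ ^ 2 = zsq f x ∧
      nsq f x < ‖mcv f x‖ ^ 2) (x y : EE n) (hxy : ∀ s ∈ Icc (0 : ℝ) 1, x + s • (y - x) ∈ U) :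
    Submodule.span ℝ (range fun i => dv1 f x i) ⊔ Submodule.span ℝ {mcv f x}
      = Submodule.span ℝ (range fun i => dv1 f y i) ⊔ Submodule.span ℝ {mcv f y} := by
  have hfx : ∀ z ∈ U, ContDiffAt ℝ ∞ f z := fun z hz => hf.contDiffAt (hU.mem_nhds hz)
  have hd1 : ∀ z ∈ U, ∀ i, ContDiffAt ℝ 1 (fun w => dv1 f w i) z := by
    intro z hz i
    have h1 : ContDiffAt ℝ 1 (fderiv ℝ f) z :=
      (contDiffAt_infty.mp (hfx z hz) 2).fderiv_right (by norm_num)
    exact h1.clm_apply contDiffAt_const
  have hmc : ∀ z ∈ U, ContDiffAt ℝ 1 (mcv f) z := by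
    intro z hz
    have h1 := (hSM n N (fun w => f w.1) (z, 0) ((hfx z hz).comp (z, (0 : ℝ)) contDiffAt_fst)
      (h z hz).1).2.2.2.2.2.2.2.1
    have h2 : ContDiffAt ℝ ∞ (fun w => mcv f w) z :=
      ContDiffAt.comp (g := fun z : EE n × ℝ => mcv (fun y => f y) z.1)
        (f := fun w : EE n => (w, (0 : ℝ))) z h1 (contDiffAt_id.prodMk contDiffAt_const)
    exact_mod_cast contDiffAt_infty.mp h2 1
  have hFr : ∀ z ∈ U, ∀ i, ContDiffAt ℝ 1 (Fr f i) z := by
    intro z hz i
    refine Fin.lastCases ?_ (fun i => ?_) i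
    · rw [Fr_last]; exact hmc z hz
    · rw [Fr_castSucc]; exact hd1 z hz i
  have hmem : ∀ z ∈ U, ∀ i (v : EE n),
      fderiv ℝ (Fr f i) z v ∈ Submodule.span ℝ (range fun i => Fr f i z) := by
    intro z hz i v
    rw [Fr_range]
    have hcz := hCZ n N f U hU (by exact_mod_cast contDiffOn_infty.mp hf 3) h z hz
    refine fderiv_mem _ _ _ _ fun l => ?_
    refine Fin.lastCases ?_ (fun i => ?_) i
    · rw [Fr_last]; exact (hcz l).1
    · rw [Fr_castSucc]; exact (hcz l).2 l i
  have hγ : ∀ s : ℝ, HasDerivAt (fun s : ℝ => x + s • (y - x)) (y - x) s := by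
    intro s
    simpa using ((hasDerivAt_id s).smul_const (y - x)).const_add x
  have hγc : Continuous (fun s : ℝ => x + s • (y - x)) := by fun_prop
  have key := frame_const hGW N (n + 1) 0 1 zero_le_one
    (fun i s => Fr f i (x + s • (y - x)))
    (fun i s => fderiv ℝ (Fr f i) (x + s • (y - x)) (y - x))
    (fun i s hs => ((hFr _ (hxy s hs) i).continuousAt.comp (f := fun s : ℝ => x + s • (y - x))
      hγc.continuousAt).continuousWithinAt)
    (fun i s hs => by
      have h1 : ContinuousAt (fderiv ℝ (Fr f i)) (x + s • (y - x)) :=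
        ((hFr _ (hxy s hs) i).fderiv_right (m := 0) (by norm_num)).continuousAt
      have h2 : ContinuousAt (fun s : ℝ => fderiv ℝ (Fr f i) (x + s • (y - x))) s :=
        ContinuousAt.comp (f := fun s : ℝ => x + s • (y - x)) h1 hγc.continuousAt
      exact (h2.clm_apply continuousAt_const).continuousWithinAt)
    (fun i s hs => by
      have h1 : HasFDerivAt (Fr f i) (fderiv ℝ (Fr f i) (x + s • (y - x))) (x + s • (y - x)) :=
        ((hFr _ (hxy s (Ioo_subset_Icc_self hs)) i).differentiableAt (by norm_num)).hasFDerivAt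
      exact h1.comp_hasDerivAt s (hγ s))
    (fun s hs => Fr_li f _ (h _ (hxy s hs)).1 (h _ (hxy s hs)).2.1)
    (fun s hs i => hmem _ (hxy s hs) i _)
  simp only [zero_smul, add_zero, one_smul, add_sub_cancel] at key
  rw [Fr_range, Fr_range] at key
  exact key

/-- PA. at a fixed time the space spanned by the tangent space and the mean curvature vector does
not depend on the point -/
theorem hPA (hGW : StGW) (hCZ : StCZ) (hI2 : StI2) (hI3 : StI3) (hSM : StSM) : StPA := by
  intro n N hn M _ _ _ _ F hF t ht hh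
  have hloc : IsLocallyConstant (fun p : M => WS n F p t) := by
    rw [IsLocallyConstant.iff_eventually_eq]
    intro p
    have hsub : ∀ x ∈ (chartAt (EE n) p).target,
        (chartAt (EE n) p).symm x ∈ (chartAt (EE n) p).source := fun x hx =>
      (chartAt (EE n) p).map_target hx
    have hf : ContDiffOn ℝ ∞ (loc (n := n) F p t) (chartAt (EE n) p).target := by
      have h1 := hI2 n N M F hF p
      have h2 : ContDiffOn ℝ ∞ (fun x : EE n => (x, t)) (chartAt (EE n) p).target :=
        contDiffOn_id.prodMk contDiffOn_const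
      exact h1.comp h2 (fun x hx => ⟨hx, ht⟩)
    have hcond : ∀ x ∈ (chartAt (EE n) p).target, LI (loc (n := n) F p t) x ∧
        mcv (loc (n := n) F p t) x ≠ 0 ∧
        nsq (loc (n := n) F p t) x * ‖mcv (loc (n := n) F p t) x‖ ^ 2
          = zsq (loc (n := n) F p t) x ∧
        nsq (loc (n := n) F p t) x < ‖mcv (loc (n := n) F p t) x‖ ^ 2 := by
      intro x hx
      obtain ⟨h1, h2, h3, h4, -⟩ := hI3 n N M F hF p ((chartAt (EE n) p).symm x) t ht (hsub x hx)
      rw [(chartAt (EE n) p).right_inv hx] at h1 h2 h3 h4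
      have h5 := hh ((chartAt (EE n) p).symm x)
      rw [h2, h3, h4] at h5
      exact ⟨h1, h5.1, h5.2.1, h5.2.2⟩
    have hWS : ∀ q ∈ (chartAt (EE n) p).source, WS n F q t
        = Submodule.span ℝ (range fun i => dv1 (loc (n := n) F p t) (chartAt (EE n) p q) i)
          ⊔ Submodule.span ℝ {mcv (loc (n := n) F p t) (chartAt (EE n) p q)} := by
      intro q hq
      obtain ⟨-, h2, -, -, h5⟩ := hI3 n N M F hF p q t ht hq
      rw [WS, h5, h2]
    obtain ⟨r, hr, hball⟩ := Metric.isOpen_iff.mp (chartAt (EE n) p).open_target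
      (chartAt (EE n) p p) (mem_chart_target (EE n) p)
    have hnear : ∀ᶠ q in 𝓝 p, q ∈ (chartAt (EE n) p).source ∧
        chartAt (EE n) p q ∈ Metric.ball (chartAt (EE n) p p) r := by
      refine Filter.Eventually.and
        ((chartAt (EE n) p).open_source.mem_nhds (mem_chart_source (EE n) p)) ?_
      exact ((chartAt (EE n) p).continuousAt (mem_chart_source (EE n) p)).eventually
        (Metric.ball_mem_nhds _ hr)
    filter_upwards [hnear] with q hq
    rw [hWS q hq.1, hWS p (mem_chart_source (EE n) p)]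
    refine seg_const hGW hCZ hSM _ _ (chartAt (EE n) p).open_target hf hcond _ _ fun s hs => ?_
    apply hball
    have hconv := convex_ball (chartAt (EE n) p p) r
    have := hconv.add_smul_sub_mem hq.2 (Metric.mem_ball_self hr) hs
    exact this
  intro p q
  exact hloc.apply_eq_of_preconnectedSpace p q

end Helper80.PI
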