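import Pool.Agent.Helper35.PI.St1

/-!
# Project PI (MP_b2fa09_gt): module R2, the reaction inequality (helper80)
-/

set_option autoImplicit false

namespace Helper80.PI

open Helper35.PI

/-- R2. the reaction inequality -/
theorem hR2 (hL : StLOSS) (hR : StRS) : StR2 := by
  intro n N hn ε hε
  obtain ⟨δ, hδ, h⟩ := hR n hn ε hε
  refine ⟨δ, hδ, ?_⟩
  intro m B hm _ hB _ hr hsr l hl
  have hs : 0 ≤ Helper35.PI.sq m := by
    unfold Helper35.PI.sq
    exact Finset.sum_nonneg fun i _ => Finset.sum_nonneg fun j _ => sq_nonneg _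
  obtain ⟨hl0, hl1, t, ht0, ht1, ht⟩ := h (Helper35.PI.sq m) (rq B) l hs hr hsr hl
  have h1 := hL n N m B hm hB l t hl0 hl1 ht0 ht1
  linarith

end Helper80.PI
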