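import Pool.Agent.Helper35.PI.St4

set_option autoImplicit false

namespace Helper80.PI

open scoped ContDiff Manifold Topology ENNReal BigOperators
open MeasureTheory Set Filter Helper35.PI

/-- one dimensional fundamental theorem of calculus with positive and negative parts -/
theorem ftc_parts (t₀ t₁ : ℝ) (h01 : t₀ ≤ t₁) (a b : ℝ → ℝ)
    (hd : ∀ r ∈ Icc t₀ t₁, HasDerivAt a (b r) r) (hb : ContinuousOn b (Icc t₀ t₁))
    (ha0 : a t₀ = 0) :
    ENNReal.ofReal (a t₁) + ∫⁻ r in Icc t₀ t₁, ENNReal.ofReal (-b r)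
      = ENNReal.ofReal (-a t₁) + ∫⁻ r in Icc t₀ t₁, ENNReal.ofReal (b r) := by
  have hint : IntegrableOn b (Icc t₀ t₁) volume := hb.integrableOn_Icc
  have hP : ∫⁻ r in Icc t₀ t₁, ENNReal.ofReal (b r) ≠ ⊤ := by
    refine ne_of_lt ((lintegral_mono fun r => ?_).trans_lt hint.2)
    exact Real.ofReal_le_enorm (b r)
  have hQ : ∫⁻ r in Icc t₀ t₁, ENNReal.ofReal (-b r) ≠ ⊤ := by
    refine ne_of_lt ((lintegral_mono fun r => ?_).trans_lt hint.neg.2)
    exact Real.ofReal_le_enorm (-b r)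
  have hftc : ∫ r in t₀..t₁, b r = a t₁ - a t₀ := by
    refine intervalIntegral.integral_eq_sub_of_hasDerivAt (fun r hr => ?_) ?_
    · rw [uIcc_of_le h01] at hr
      exact hd r hr
    · rw [intervalIntegrable_iff_integrableOn_Icc_of_le h01]
      exact hint
  rw [intervalIntegral.integral_of_le h01, ← integral_Icc_eq_integral_Ioc, ha0, sub_zero,
    integral_eq_lintegral_pos_part_sub_lintegral_neg_part hint] at hftc
  have h1 : ENNReal.ofReal (a t₁) + ENNReal.ofReal
      (∫⁻ r in Icc t₀ t₁, ENNReal.ofReal (-b r)).toReal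
      = ENNReal.ofReal (-a t₁) + ENNReal.ofReal
        (∫⁻ r in Icc t₀ t₁, ENNReal.ofReal (b r)).toReal := by
    have hq0 : 0 ≤ (∫⁻ r in Icc t₀ t₁, ENNReal.ofReal (-b r)).toReal := ENNReal.toReal_nonneg
    have hp0 : 0 ≤ (∫⁻ r in Icc t₀ t₁, ENNReal.ofReal (b r)).toReal := ENNReal.toReal_nonneg
    rcases le_total 0 (a t₁) with h | h
    · rw [ENNReal.ofReal_of_nonpos (by linarith : -a t₁ ≤ 0), zero_add, ← ENNReal.ofReal_add h hq0]
      congr 1
      linarith
    · rw [ENNReal.ofReal_of_nonpos h, zero_add, ← ENNReal.ofReal_add (by linarith) hp0]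
      congr 1
      linarith
  rwa [ENNReal.ofReal_toReal hP, ENNReal.ofReal_toReal hQ] at h1

theorem hV9 : StV9 := by
  intro n T hT χ hχ t₀ t₁ h01 a b hd hb ha0 ha1
  have hTm : MeasurableSet T := hT.measurableSet
  have hIm : MeasurableSet (Icc t₀ t₁) := measurableSet_Icc
  have hprod : ((volume : Measure (EE n)).restrict T).prod ((volume : Measure ℝ).restrict
      (Icc t₀ t₁)) = ((volume : Measure (EE n)).prod (volume : Measure ℝ)).restrict
        (T ×ˢ Icc t₀ t₁) := Measure.prod_restrict _ _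
  have hbm : AEMeasurable (fun z : EE n × ℝ => b z.1 z.2)
      (((volume : Measure (EE n)).restrict T).prod ((volume : Measure ℝ).restrict
        (Icc t₀ t₁))) := by
    rw [hprod]
    exact hb.aemeasurable (hTm.prod hIm)
  have hχm : AEMeasurable (fun z : EE n × ℝ => χ z.1)
      (((volume : Measure (EE n)).restrict T).prod ((volume : Measure ℝ).restrict
        (Icc t₀ t₁))) :=
    hχ.comp_quasiMeasurePreserving Measure.quasiMeasurePreserving_fst
  have hm1 : AEMeasurable (fun z : EE n × ℝ => χ z.1 * ENNReal.ofReal (b z.1 z.2))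
      (((volume : Measure (EE n)).restrict T).prod ((volume : Measure ℝ).restrict
        (Icc t₀ t₁))) := hχm.mul hbm.ennreal_ofReal
  have hm2 : AEMeasurable (fun z : EE n × ℝ => χ z.1 * ENNReal.ofReal (-b z.1 z.2))
      (((volume : Measure (EE n)).restrict T).prod ((volume : Measure ℝ).restrict
        (Icc t₀ t₁))) := hχm.mul hbm.neg.ennreal_ofReal
  rw [← lintegral_lintegral_swap (f := fun y r => χ y * ENNReal.ofReal (b y r)) hm1,
    ← lintegral_lintegral_swap (f := fun y r => χ y * ENNReal.ofReal (-b y r)) hm2]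
  have hm2' : AEMeasurable (fun y : EE n => ∫⁻ r in Icc t₀ t₁, χ y * ENNReal.ofReal (-b y r))
      (volume.restrict T) := hm2.lintegral_prod_right'
  rw [← lintegral_add_right' _ hm2']
  refine setLIntegral_congr_fun hTm fun y hy => ?_
  have hby : ContinuousOn (b y) (Icc t₀ t₁) :=
    hb.comp (f := fun r : ℝ => (y, r)) (by fun_prop) (fun r hr => ⟨hy, hr⟩)
  have h1 := ftc_parts t₀ t₁ h01 (a y) (b y) (hd y hy) hby (ha0 y hy)
  rw [ENNReal.ofReal_of_nonpos (by linarith [ha1 y hy] : -a y t₁ ≤ 0), zero_add] at h1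
  have hmb : AEMeasurable (fun r => ENNReal.ofReal (b y r)) (volume.restrict (Icc t₀ t₁)) :=
    (hby.aemeasurable hIm).ennreal_ofReal
  have hmb' : AEMeasurable (fun r => ENNReal.ofReal (-b y r)) (volume.restrict (Icc t₀ t₁)) :=
    (hby.aemeasurable hIm).neg.ennreal_ofReal
  show χ y * ENNReal.ofReal (a y t₁) + ∫⁻ r in Icc t₀ t₁, χ y * ENNReal.ofReal (-b y r)
    = ∫⁻ r in Icc t₀ t₁, χ y * ENNReal.ofReal (b y r)
  rw [lintegral_const_mul'' _ hmb, lintegral_const_mul'' _ hmb', ← mul_add, h1]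

end Helper80.PI
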